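import Mathlib

/-!
# Sums of few 3-smooth numbers at good scales

Elementary greedy representation of integers as sums of few numbers `2 ^ a * 3 ^ b`.
-/

set_option autoImplicit false

namespace Pool.Agent.TH96.SL

/-- A `3`-smooth number. -/
def Sm (s : ℕ) : Prop := ∃ a b : ℕ, s = 2 ^ a * 3 ^ b

/-- `log 2 / log 3`. -/
noncomputable def θ : ℝ := Real.log 2 / Real.log 3

lemma log3_pos : 0 < Real.log 3 := Real.log_pos (by norm_num)

lemma θ_pos : 0 < θ := div_pos (Real.log_pos (by norm_num)) log3_pos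

lemma θ_le_one : θ ≤ 1 := by
  unfold θ
  rw [div_le_one log3_pos]
  exact Real.log_le_log (by norm_num) (by norm_num)

lemma θ_mul : θ * Real.log 3 = Real.log 2 := by
  unfold θ
  field_simp [log3_pos.ne']

/-- `q θ` is never an integer for `q ≥ 1`. -/
lemma θ_ne (q : ℕ) (hq : 0 < q) (p : ℤ) : (q : ℝ) * θ ≠ p := by
  intro h
  have h0 : (0 : ℝ) < p := by
    rw [← h]
    exact mul_pos (by exact_mod_cast hq) θ_pos
  have hp : 0 < p := by exact_mod_cast h0
  obtain ⟨m, rfl⟩ : ∃ m : ℕ, p = m := ⟨p.toNat, by omega⟩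
  have h1 : (q : ℝ) * Real.log 2 = (m : ℝ) * Real.log 3 := by
    rw [← θ_mul, ← mul_assoc, h]
    push_cast
    ring
  have h2 : Real.log ((2 : ℝ) ^ q) = Real.log ((3 : ℝ) ^ m) := by
    rw [Real.log_pow, Real.log_pow]
    exact h1
  have h3 : (2 : ℝ) ^ q = (3 : ℝ) ^ m :=
    Real.log_injOn_pos (Set.mem_Ioi.2 (by positivity)) (Set.mem_Ioi.2 (by positivity)) h2
  have h4 : 2 ^ q = 3 ^ m := by exact_mod_cast h3
  have h5 : 2 ∣ 3 ^ m := by
    rw [← h4]
    exact dvd_pow_self 2 hq.ne'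
  have h6 := Nat.prime_two.dvd_of_dvd_pow h5
  omega

/-- Good rational approximations of `θ` with large denominator. -/
lemma exists_good (B : ℕ) : ∃ r : ℚ, B < r.den ∧ |θ - r| < 1 / (r.den : ℝ) ^ 2 := by
  -- a positive lower bound for `|dθ - p|`, `1 ≤ d ≤ B`
  have key : ∀ B : ℕ, ∃ N : ℕ, 0 < N ∧ ∀ d : ℕ, 0 < d → d ≤ B → ∀ p : ℤ,
      1 / ((N : ℝ) + 1) < |(d : ℝ) * θ - p| := by
    intro B
    induction B with
    | zero => exact ⟨1, one_pos, fun d h1 h2 => by omega⟩
    | succ B ih =>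
      obtain ⟨N, hN, h⟩ := ih
      have hpos : 0 < |((B + 1 : ℕ) : ℝ) * θ - round (((B + 1 : ℕ) : ℝ) * θ)| := by
        rw [abs_pos, sub_ne_zero]
        exact θ_ne _ (Nat.succ_pos _) _
      obtain ⟨N', hN'⟩ := exists_nat_one_div_lt hpos
      refine ⟨max N N', lt_max_of_lt_left hN, fun d h1 h2 p => ?_⟩
      rcases Nat.lt_or_ge d (B + 1) with h3 | h3
      · refine lt_of_le_of_lt ?_ (h d h1 (by omega) p)
        apply one_div_le_one_div_of_le (by positivity)
        have : (N : ℝ) ≤ ((max N N' : ℕ) : ℝ) := by exact_mod_cast le_max_left _ _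
        linarith
      · obtain rfl : d = B + 1 := by omega
        have h4 := round_le (((B + 1 : ℕ) : ℝ) * θ) p
        refine lt_of_lt_of_le (lt_of_le_of_lt ?_ hN') h4
        apply one_div_le_one_div_of_le (by positivity)
        have : (N' : ℝ) ≤ ((max N N' : ℕ) : ℝ) := by exact_mod_cast le_max_right _ _
        linarith
  obtain ⟨N, hN, h⟩ := key B
  obtain ⟨r, hr, hrN⟩ := Real.exists_rat_abs_sub_le_and_den_le θ hN
  have hd : (0 : ℝ) < r.den := by exact_mod_cast r.den_pos
  refine ⟨r, ?_, ?_⟩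
  · by_contra hB
    have h1 := h r.den r.den_pos (by omega) r.num
    have h2 : |(r.den : ℝ) * θ - r.num| = r.den * |θ - r| := by
      rw [← abs_of_pos hd, ← abs_mul, abs_of_pos hd]
      congr 1
      have h3 : (r : ℝ) = r.num / r.den := by exact_mod_cast (Rat.num_div_den r).symm
      rw [h3]
      field_simp
    rw [h2] at h1
    have h4 : (r.den : ℝ) * |θ - r| ≤ r.den * (1 / (((N : ℝ) + 1) * r.den)) :=
      mul_le_mul_of_nonneg_left hr hd.le
    have h5 : (r.den : ℝ) * (1 / (((N : ℝ) + 1) * r.den)) = 1 / ((N : ℝ) + 1) := by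
      field_simp
    linarith
  · refine lt_of_le_of_lt hr ?_
    apply one_div_lt_one_div_of_lt (by positivity)
    rw [sq]
    apply mul_lt_mul_of_pos_right _ hd
    have : (r.den : ℝ) ≤ N := by exact_mod_cast hrN
    linarith

/-- Trivial lower bound for the linear form `d log 2 - p log 3`. -/
lemma form_lower (d : ℕ) (hd : 0 < d) (p : ℤ) : 1 ≤ |(d : ℝ) * θ - p| * (2 * 3 ^ d) := by
  have h3d : (1 : ℝ) ≤ 3 ^ d := one_le_pow₀ (by norm_num)
  have hd0 : (0 : ℝ) < d := by exact_mod_cast hd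
  have hθ := θ_pos
  rcases lt_or_ge p 0 with hp | hp
  · have h1 : (p : ℝ) ≤ -1 := by
      have : p ≤ -1 := by omega
      exact_mod_cast this
    have h2 : (1 : ℝ) ≤ |(d : ℝ) * θ - p| := by
      have : (0 : ℝ) < d * θ := mul_pos hd0 hθ
      exact le_trans (by linarith) (le_abs_self _)
    nlinarith
  · obtain ⟨m, rfl⟩ : ∃ m : ℕ, p = m := ⟨p.toNat, by omega⟩
    rcases Nat.lt_or_ge d m with hm | hm
    · have h1 : (d : ℝ) + 1 ≤ m := by exact_mod_cast hm
      have h2 : (1 : ℝ) ≤ |(d : ℝ) * θ - (m : ℤ)| := by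
        have h4 : (d : ℝ) * θ ≤ d * 1 := mul_le_mul_of_nonneg_left θ_le_one hd0.le
        have h5 := neg_abs_le ((d : ℝ) * θ - (m : ℤ))
        push_cast at h5 ⊢
        linarith
      nlinarith
    · -- the main case
      have hne : (2 : ℝ) ^ d ≠ 3 ^ m := by
        intro h
        have h4 : 2 ^ d = 3 ^ m := by exact_mod_cast h
        have h5 : 2 ∣ 3 ^ m := by
          rw [← h4]
          exact dvd_pow_self 2 hd.ne'
        have h6 := Nat.prime_two.dvd_of_dvd_pow h5
        omega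
      have hlog : ∀ A B : ℕ, 0 < B → B < A → (A : ℝ) ≤ 3 ^ d →
          1 ≤ (Real.log A - Real.log B) * 3 ^ d := by
        intro A B hB hAB hA
        have hB0 : (0 : ℝ) < B := by exact_mod_cast hB
        have hA0 : (0 : ℝ) < A := by
          have : 0 < A := by omega
          exact_mod_cast this
        have hAB' : (B : ℝ) + 1 ≤ A := by exact_mod_cast hAB
        have h1 : Real.log (B / A) ≤ B / A - 1 := Real.log_le_sub_one_of_pos (by positivity)
        rw [Real.log_div hB0.ne' hA0.ne'] at h1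
        have h2 : 1 / (A : ℝ) ≤ 1 - B / A := by
          rw [div_le_iff₀ hA0, sub_mul, div_mul_cancel₀ _ hA0.ne']
          linarith
        have h3 : 1 / (A : ℝ) ≤ Real.log A - Real.log B := by linarith
        have h4 : (1 / (A : ℝ)) * A ≤ (Real.log A - Real.log B) * 3 ^ d :=
          mul_le_mul h3 hA hA0.le (le_trans (by positivity) h3)
        rwa [one_div, inv_mul_cancel₀ hA0.ne'] at h4
      have hid : ((d : ℝ) * θ - (m : ℤ)) * Real.log 3 =
          Real.log ((2 ^ d : ℕ) : ℝ) - Real.log ((3 ^ m : ℕ) : ℝ) := by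
        push_cast
        rw [Real.log_pow, Real.log_pow, ← θ_mul]
        ring
      have h23 : (2 : ℝ) ^ d ≤ 3 ^ d := pow_le_pow_left₀ (by norm_num) (by norm_num) _
      have h33 : (3 : ℝ) ^ m ≤ 3 ^ d := pow_le_pow_right₀ (by norm_num) hm
      have habs : 1 ≤ |((d : ℝ) * θ - (m : ℤ)) * Real.log 3| * 3 ^ d := by
        rw [hid]
        rcases lt_or_gt_of_ne hne with h | h
        · have h' : 2 ^ d < 3 ^ m := by exact_mod_cast h
          have := hlog (3 ^ m) (2 ^ d) (by positivity) h' (by push_cast; exact h33)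
          refine this.trans (mul_le_mul_of_nonneg_right ?_ (by positivity))
          rw [abs_sub_comm]
          exact le_abs_self _
        · have h' : 3 ^ m < 2 ^ d := by exact_mod_cast h
          have := hlog (2 ^ d) (3 ^ m) (by positivity) h' (by push_cast; exact h23)
          exact this.trans (mul_le_mul_of_nonneg_right (le_abs_self _) (by positivity))
      rw [abs_mul, abs_of_pos log3_pos] at habs
      have hl2 : Real.log 3 ≤ 2 := by
        have := Real.log_three_lt_d9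
        linarith
      calc (1 : ℝ) ≤ |(d : ℝ) * θ - (m : ℤ)| * Real.log 3 * 3 ^ d := habs
        _ ≤ |(d : ℝ) * θ - (m : ℤ)| * 2 * 3 ^ d := by
            apply mul_le_mul_of_nonneg_right _ (by positivity)
            exact mul_le_mul_of_nonneg_left hl2 (abs_nonneg _)
        _ = |(d : ℝ) * θ - (m : ℤ)| * (2 * 3 ^ d) := by ring

/-- Good rational approximations of `θ` in every long range. -/
lemma exists_good_range (N : ℕ) (hN : 0 < N) : ∃ r : ℚ, r.den ≤ N ∧ N + 1 ≤ 2 * 3 ^ r.den ∧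
    |θ - r| < 1 / (r.den : ℝ) ^ 2 := by
  obtain ⟨r, hr, hrN⟩ := Real.exists_rat_abs_sub_le_and_den_le θ hN
  have hd : (0 : ℝ) < r.den := by exact_mod_cast r.den_pos
  refine ⟨r, hrN, ?_, ?_⟩
  · have h1 := form_lower r.den r.den_pos r.num
    have h2 : |(r.den : ℝ) * θ - r.num| = r.den * |θ - r| := by
      rw [← abs_of_pos hd, ← abs_mul, abs_of_pos hd]
      congr 1
      have h3 : (r : ℝ) = r.num / r.den := by exact_mod_cast (Rat.num_div_den r).symm
      rw [h3]
      field_simp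
    rw [h2] at h1
    have h4 : (r.den : ℝ) * |θ - r| ≤ r.den * (1 / (((N : ℝ) + 1) * r.den)) :=
      mul_le_mul_of_nonneg_left hr hd.le
    have h5 : (r.den : ℝ) * (1 / (((N : ℝ) + 1) * r.den)) = 1 / ((N : ℝ) + 1) := by
      field_simp
    rw [h5] at h4
    have h6 : (1 : ℝ) ≤ 1 / ((N : ℝ) + 1) * (2 * 3 ^ r.den) :=
      h1.trans (mul_le_mul_of_nonneg_right h4 (by positivity))
    rw [one_div, inv_mul_eq_div, le_div_iff₀ (by positivity), one_mul] at h6
    exact_mod_cast h6
  · refine lt_of_le_of_lt hr ?_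
    apply one_div_lt_one_div_of_lt (by positivity)
    rw [sq]
    apply mul_lt_mul_of_pos_right _ hd
    have : (r.den : ℝ) ≤ N := by exact_mod_cast hrN
    linarith

/-- `3`-smooth numbers just below `x` at a good scale. -/
lemma gap (r : ℚ) (hr : |θ - r| < 1 / (r.den : ℝ) ^ 2) (hq : 2 ≤ r.den) (x : ℕ)
    (hx : 3 ^ r.den ≤ x) :
    ∃ s : ℕ, Sm s ∧ s ≤ x ∧ r.den * (x - s) ≤ 4 * x := by
  set q : ℕ := r.den with hqdef
  set p : ℤ := r.num with hpdef
  have hq0 : (0 : ℝ) < q := by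
    have : 0 < q := by omega
    exact_mod_cast this
  have hq2 : (2 : ℝ) ≤ q := by exact_mod_cast hq
  have hrpq : (r : ℝ) = p / q := by exact_mod_cast (Rat.num_div_den r).symm
  have hx0 : (0 : ℝ) < x := by
    have : 0 < x := lt_of_lt_of_le (by positivity) hx
    exact_mod_cast this
  have hl3 := log3_pos
  -- the logarithm of `x` to base 3
  set y : ℝ := Real.log x / Real.log 3 with hy
  have hyl : y * Real.log 3 = Real.log x := by
    rw [hy]
    field_simp
  have hyq : (q : ℝ) ≤ y := by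
    rw [hy, le_div_iff₀ hl3]
    have h1 : Real.log ((3 : ℝ) ^ q) ≤ Real.log x :=
      Real.log_le_log (by positivity) (by exact_mod_cast hx)
    rwa [Real.log_pow] at h1
  set j : ℤ := ⌊(q : ℝ) * y - 1⌋ with hj
  have hj1 : (j : ℝ) ≤ q * y - 1 := Int.floor_le _
  have hj2 : (q : ℝ) * y - 1 < j + 1 := Int.lt_floor_add_one _
  -- Bezout
  have hcop : IsCoprime p (q : ℤ) := by
    rw [Int.isCoprime_iff_gcd_eq_one]
    have := r.reduced
    simpa [Int.gcd, Nat.Coprime] using this
  obtain ⟨u, v, huv⟩ := hcop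
  -- u * p + v * q = 1
  have hqz : (0 : ℤ) < q := by
    have : 0 < q := by omega
    exact_mod_cast this
  set a : ℤ := (j * u) % q with ha
  have ha0 : 0 ≤ a := Int.emod_nonneg _ hqz.ne'
  have ha1 : a < q := Int.emod_lt_of_pos _ hqz
  set w : ℤ := (j * u) / q with hw
  have haw : a = j * u - q * w := by
    have := Int.emod_add_mul_ediv (j * u) q
    linarith
  set b : ℤ := j * v + w * p with hb
  have hab : a * p + q * b = j := by
    rw [haw, hb]
    linear_combination j * huv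
  have habR : (a : ℝ) * p + q * b = j := by exact_mod_cast hab
  have haR0 : (0 : ℝ) ≤ a := by exact_mod_cast ha0
  have haR1 : (a : ℝ) ≤ q - 1 := by
    have h1 : a + 1 ≤ q := by omega
    have h2 : ((a + 1 : ℤ) : ℝ) ≤ ((q : ℤ) : ℝ) := by exact_mod_cast h1
    push_cast at h2
    linarith
  -- the exponent of the smooth number
  set V : ℝ := a * θ + b with hV
  have hVj : |V - j / q| < 1 / q := by
    have h1 : V - j / q = a * (θ - r) := by
      rw [hV, hrpq, ← habR]
      field_simp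
      ring
    rw [h1, abs_mul, abs_of_nonneg haR0]
    have h2 : (a : ℝ) * |θ - r| ≤ (q - 1) * |θ - r| :=
      mul_le_mul_of_nonneg_right haR1 (abs_nonneg _)
    have h3 : ((q : ℝ) - 1) * |θ - r| ≤ (q - 1) * (1 / (q : ℝ) ^ 2) :=
      mul_le_mul_of_nonneg_left hr.le (by linarith)
    have h4 : ((q : ℝ) - 1) * (1 / (q : ℝ) ^ 2) < 1 / q := by
      rw [mul_one_div, div_lt_div_iff₀ (by positivity) hq0]
      nlinarith
    linarith
  rw [abs_lt] at hVj
  have hjq1 : (j : ℝ) / q ≤ y - 1 / q := by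
    rw [div_le_iff₀ hq0, sub_mul, one_div, inv_mul_cancel₀ hq0.ne']
    linarith
  have hjq2 : y - 2 / q ≤ (j : ℝ) / q := by
    rw [le_div_iff₀ hq0, sub_mul, div_mul_cancel₀ _ hq0.ne']
    linarith
  have hVy : V ≤ y := by
    have := hVj.2
    linarith
  have hVy2 : y - 3 / q ≤ V := by
    have h1 := hVj.1
    have h2 : (3 : ℝ) / q = 2 / q + 1 / q := by ring
    linarith
  have hb0 : 0 ≤ b := by
    have h1 : (a : ℝ) * θ ≤ q - 1 := by
      have : (a : ℝ) * θ ≤ (q - 1) * 1 :=
        mul_le_mul haR1 θ_le_one θ_pos.le (by linarith)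
      linarith
    have h2 : (3 : ℝ) / q ≤ 3 / 2 := by
      apply div_le_div_of_nonneg_left (by norm_num) (by norm_num) hq2
    have h3 : (-1 : ℝ) < b := by
      have : (b : ℝ) = V - a * θ := by rw [hV]; ring
      rw [this]
      linarith
    have h4 : (-1 : ℤ) < b := by exact_mod_cast h3
    omega
  obtain ⟨A, hA⟩ : ∃ A : ℕ, a = A := ⟨a.toNat, by omega⟩
  obtain ⟨Bn, hBn⟩ : ∃ Bn : ℕ, b = Bn := ⟨b.toNat, by omega⟩
  set s : ℕ := 2 ^ A * 3 ^ Bn with hs
  have hs0 : (0 : ℝ) < s := by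
    have : 0 < s := by positivity
    exact_mod_cast this
  have hlogs : Real.log s = V * Real.log 3 := by
    have h1 : (s : ℝ) = 2 ^ A * 3 ^ Bn := by
      rw [hs]
      push_cast
      ring
    rw [h1, Real.log_mul (by positivity) (by positivity), Real.log_pow, Real.log_pow, hV, hA, hBn]
    push_cast
    rw [← θ_mul]
    ring
  have hsx : (s : ℝ) ≤ x := by
    rw [← Real.log_le_log_iff hs0 hx0, hlogs, ← hyl]
    exact mul_le_mul_of_nonneg_right hVy hl3.le
  have hsxN : s ≤ x := by exact_mod_cast hsx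
  refine ⟨s, ⟨A, Bn, rfl⟩, hsxN, ?_⟩
  have hlow : (x : ℝ) * (1 - 3 * Real.log 3 / q) ≤ s := by
    have h1 : Real.log x - 3 * Real.log 3 / q ≤ Real.log s := by
      rw [hlogs, ← hyl]
      have : (y - 3 / q) * Real.log 3 ≤ V * Real.log 3 :=
        mul_le_mul_of_nonneg_right hVy2 hl3.le
      have h2 : (y - 3 / q) * Real.log 3 = y * Real.log 3 - 3 * Real.log 3 / q := by ring
      linarith
    have h2 : Real.exp (Real.log x - 3 * Real.log 3 / q) ≤ s := by
      rw [← Real.exp_log hs0]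
      exact Real.exp_le_exp.2 (by simpa using h1)
    rw [sub_eq_add_neg, Real.exp_add, Real.exp_log hx0] at h2
    have h3 := Real.add_one_le_exp (-(3 * Real.log 3 / q))
    have h4 : (x : ℝ) * (1 - 3 * Real.log 3 / q) ≤ x * Real.exp (-(3 * Real.log 3 / q)) :=
      mul_le_mul_of_nonneg_left (by linarith) hx0.le
    linarith
  have h3log : 3 * Real.log 3 ≤ 4 := by
    have := Real.log_three_lt_d9
    linarith
  have hfin : (q : ℝ) * (x - s) ≤ 4 * x := by
    have h1 : (q : ℝ) * (x * (1 - 3 * Real.log 3 / q)) ≤ q * s :=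
      mul_le_mul_of_nonneg_left hlow hq0.le
    have h2 : (q : ℝ) * (x * (1 - 3 * Real.log 3 / q)) = q * x - 3 * Real.log 3 * x := by
      field_simp
    have h3 : 3 * Real.log 3 * x ≤ 4 * x := mul_le_mul_of_nonneg_right h3log hx0.le
    linarith
  have hcast : ((q * (x - s) : ℕ) : ℝ) ≤ ((4 * x : ℕ) : ℝ) := by
    push_cast [Nat.cast_sub hsxN]
    exact hfin
  exact_mod_cast hcast

/-- `N` is a sum of exactly `T` numbers that are `3`-smooth. -/
def Rep (N T : ℕ) : Prop := ∃ l : List ℕ, l.length = T ∧ (∀ s ∈ l, Sm s) ∧ l.sum = N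

lemma Sm.mul3 {s : ℕ} (h : Sm s) : Sm (3 * s) := by
  obtain ⟨a, b, rfl⟩ := h
  exact ⟨a, b + 1, by ring⟩

lemma sm_one : Sm 1 := ⟨0, 0, by norm_num⟩

lemma Sm.pos {s : ℕ} (h : Sm s) : 0 < s := by
  obtain ⟨a, b, rfl⟩ := h
  positivity

lemma Rep.cons {N T s : ℕ} (h : Rep N T) (hs : Sm s) : Rep (s + N) (T + 1) := by
  obtain ⟨l, h1, h2, h3⟩ := h
  exact ⟨s :: l, by simp [h1], by simpa using ⟨hs, h2⟩, by simp [h3]⟩

lemma Rep.mul3 {N T : ℕ} (h : Rep N T) : Rep (3 * N) T := by
  obtain ⟨l, h1, h2, h3⟩ := h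
  refine ⟨l.map (fun s => 3 * s), by simp [h1], ?_, ?_⟩
  · intro s hs
    obtain ⟨t, ht, rfl⟩ := List.mem_map.1 hs
    exact (h2 t ht).mul3
  · rw [List.sum_map_mul_left]
    simp [h3]

/-- Ternary digits. -/
lemma rep_small (q : ℕ) : ∀ N : ℕ, N < 3 ^ q → ∃ T ≤ 2 * q, Rep N T := by
  induction q with
  | zero =>
    intro N hN
    have : N = 0 := by simpa using hN
    subst this
    exact ⟨0, le_rfl, [], by simp⟩
  | succ q ih =>
    intro N hN
    have h1 : N / 3 < 3 ^ q := by
      rw [Nat.div_lt_iff_lt_mul (by norm_num)]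
      rw [pow_succ] at hN
      exact hN
    obtain ⟨T, hT, hrep⟩ := ih _ h1
    have h2 := hrep.mul3
    have h3 : N % 3 < 3 := Nat.mod_lt _ (by norm_num)
    have h4 : 3 * (N / 3) + N % 3 = N := Nat.div_add_mod N 3
    have h5 : N % 3 = 0 ∨ N % 3 = 1 ∨ N % 3 = 2 := by omega
    rcases h5 with h5 | h5 | h5
    · refine ⟨T, by omega, ?_⟩
      have : 3 * (N / 3) = N := by omega
      rwa [this] at h2
    · refine ⟨T + 1, by omega, ?_⟩
      have : 1 + 3 * (N / 3) = N := by omega
      have h6 := h2.cons sm_one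
      rwa [this] at h6
    · refine ⟨T + 1 + 1, by omega, ?_⟩
      have : 1 + (1 + 3 * (N / 3)) = N := by omega
      have h6 := (h2.cons sm_one).cons sm_one
      rwa [this] at h6

/-- The greedy algorithm. -/
lemma greedy (r : ℚ) (hr : |θ - r| < 1 / (r.den : ℝ) ^ 2) (hq : 2 ≤ r.den) (m : ℕ) :
    ∀ N : ℕ, N * 4 ^ m < r.den ^ m * 3 ^ r.den → ∃ T ≤ m + 2 * r.den, Rep N T := by
  induction m with
  | zero =>
    intro N hN
    simp only [pow_zero, mul_one, one_mul] at hN
    obtain ⟨T, hT, h⟩ := rep_small _ N hN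
    exact ⟨T, by omega, h⟩
  | succ m ih =>
    intro N hN
    rcases Nat.lt_or_ge N (3 ^ r.den) with h | h
    · obtain ⟨T, hT, h⟩ := rep_small _ N h
      exact ⟨T, by omega, h⟩
    · obtain ⟨s, hs, hsN, hgap⟩ := gap r hr hq N h
      have h1 : (N - s) * 4 ^ m < r.den ^ m * 3 ^ r.den := by
        have h2 : r.den * ((N - s) * 4 ^ m) < r.den * (r.den ^ m * 3 ^ r.den) := by
          calc r.den * ((N - s) * 4 ^ m) = (r.den * (N - s)) * 4 ^ m := by ring
            _ ≤ (4 * N) * 4 ^ m := Nat.mul_le_mul_right _ hgap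
            _ = N * 4 ^ (m + 1) := by ring
            _ < r.den ^ (m + 1) * 3 ^ r.den := hN
            _ = r.den * (r.den ^ m * 3 ^ r.den) := by ring
        exact Nat.lt_of_mul_lt_mul_left h2
      obtain ⟨T, hT, hrep⟩ := ih _ h1
      refine ⟨T + 1, by omega, ?_⟩
      have h3 := hrep.cons hs
      have h4 : s + (N - s) = N := by omega
      rwa [h4] at h3

/-- A representation can be lengthened by one term. -/
lemma Rep.succ {N T : ℕ} (h : Rep N T) (hT : T < N) : Rep N (T + 1) := by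
  obtain ⟨l, h1, h2, h3⟩ := h
  have hex : ∃ s ∈ l, 1 < s := by
    by_contra hcon
    push Not at hcon
    have h4 : l.sum ≤ l.length * 1 := by
      have := List.sum_le_card_nsmul l 1 hcon
      simpa using this
    omega
  obtain ⟨s, hsl, hs1⟩ := hex
  obtain ⟨a, b, hab⟩ := h2 s hsl
  have hsplit : ∃ s1 s2, Sm s1 ∧ Sm s2 ∧ s1 + s2 = s := by
    rcases Nat.eq_zero_or_pos a with ha | ha
    · rcases Nat.eq_zero_or_pos b with hb | hb
      · subst ha hb
        simp at hab
        omega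
      · obtain ⟨b', rfl⟩ : ∃ b', b = b' + 1 := ⟨b - 1, by omega⟩
        exact ⟨2 ^ 0 * 3 ^ b', 2 ^ 1 * 3 ^ b', ⟨0, b', rfl⟩, ⟨1, b', rfl⟩, by
          rw [hab, ha]; ring⟩
    · obtain ⟨a', rfl⟩ : ∃ a', a = a' + 1 := ⟨a - 1, by omega⟩
      exact ⟨2 ^ a' * 3 ^ b, 2 ^ a' * 3 ^ b, ⟨a', b, rfl⟩, ⟨a', b, rfl⟩, by
        rw [hab]; ring⟩
  obtain ⟨s1, s2, hs1', hs2', hsum⟩ := hsplit
  have hperm := List.perm_cons_erase hsl
  have hlen : l.length = (l.erase s).length + 1 := by
    have := hperm.length_eq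
    simpa using this
  have hsum' : l.sum = s + (l.erase s).sum := by
    have := hperm.sum_eq
    simpa using this
  refine ⟨s1 :: s2 :: l.erase s, ?_, ?_, ?_⟩
  · simp only [List.length_cons]
    omega
  · intro t ht
    simp only [List.mem_cons] at ht
    rcases ht with rfl | rfl | ht
    · exact hs1'
    · exact hs2'
    · exact h2 t (List.mem_of_mem_erase ht)
  · simp only [List.sum_cons]
    omega

lemma Rep.pad {N T : ℕ} (h : Rep N T) {T' : ℕ} (h1 : T ≤ T') (h2 : T' ≤ N) : Rep N T' := by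
  induction T', h1 using Nat.le_induction with
  | base => exact h
  | succ k hk ih => exact (ih (by omega)).succ (by omega)

end Pool.Agent.TH96.SL
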