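import Mathlib
import Pool.Agent.TH96.SL.A

/-!
# Admissible tuples of 3-smooth numbers
-/

set_option autoImplicit false

namespace Pool.Agent.TH96.SL

/-- An admissible `n`-tuple: coprime integers with sum zero and no vanishing proper sub-sum. -/
def Admissible {n : ℕ} (x : Fin n → ℤ) : Prop :=
  Finset.univ.gcd x = 1 ∧ ∑ i, x i = 0 ∧
    ∀ I : Finset (Fin n), I.Nonempty → I ≠ Finset.univ → ∑ i ∈ I, x i ≠ 0

/-- The radical of `x_1 ⋯ x_n`: the product of the primes dividing it. -/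
def rad {n : ℕ} (x : Fin n → ℤ) : ℕ := ∏ p ∈ (∏ i, x i).natAbs.primeFactors, p

/-- A tuple from a representation of `3 ^ k - 1`. -/
lemma tuple_of_rep {T k : ℕ} (h : Rep (3 ^ k - 1) T) :
    ∃ x : Fin (T + 2) → ℤ, Admissible x ∧ rad x ≤ 6 ∧ x 0 = -(3 ^ k : ℤ) := by
  obtain ⟨l, h1, h2, h3⟩ := h
  subst h1
  set x : Fin (l.length + 2) → ℤ :=
    Fin.cons (-(3 ^ k : ℤ)) (Fin.cons 1 (fun i : Fin l.length => ((l.get i : ℕ) : ℤ))) with hx
  have hx0 : x 0 = -(3 ^ k : ℤ) := rfl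
  have hx1 : x 1 = 1 := rfl
  have hxs : ∀ i : Fin l.length, x i.succ.succ = ((l.get i : ℕ) : ℤ) := fun i => rfl
  have hsum : ∑ i, x i = 0 := by
    rw [Fin.sum_univ_succ, Fin.sum_univ_succ, hx0]
    have e1 : x (Fin.succ 0) = 1 := rfl
    rw [e1]
    have e2 : ∑ i : Fin l.length, x i.succ.succ = ((l.sum : ℕ) : ℤ) := by
      have e3 : ∑ i : Fin l.length, x i.succ.succ = ((∑ i : Fin l.length, l.get i : ℕ) : ℤ) := by
        push_cast
        exact Finset.sum_congr rfl fun i _ => hxs i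
      rw [e3]
      congr 1
      conv_rhs => rw [← List.ofFn_get l]
      rw [List.sum_ofFn]
    rw [e2, h3]
    have e4 : 1 ≤ 3 ^ k := Nat.one_le_pow _ _ (by norm_num)
    push_cast [Nat.cast_sub e4]
    ring
  have hpos : ∀ i : Fin (l.length + 2), i ≠ 0 → 0 < x i := by
    intro i
    refine Fin.cases ?_ (fun i => ?_) i
    · intro h
      exact absurd rfl h
    · intro _
      refine Fin.cases ?_ (fun i => ?_) i
      · show (0 : ℤ) < 1
        norm_num
      · rw [hxs]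
        have := (h2 (l.get i) (List.get_mem l i)).pos
        exact_mod_cast this
  have hposI : ∀ I : Finset (Fin (l.length + 2)), I.Nonempty → (0 : Fin (l.length + 2)) ∉ I →
      0 < ∑ i ∈ I, x i := by
    intro I hI h0
    apply Finset.sum_pos _ hI
    intro i hi
    exact hpos i (fun h => h0 (h ▸ hi))
  refine ⟨x, ⟨?_, hsum, ?_⟩, ?_, hx0⟩
  · have h4 : Finset.univ.gcd x ∣ 1 := by
      have := Finset.gcd_dvd (f := x) (Finset.mem_univ (1 : Fin (l.length + 2)))
      rwa [hx1] at this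
    have h5 : normalize (Finset.univ.gcd x) = Finset.univ.gcd x := Finset.normalize_gcd
    rw [← h5]
    exact normalize_eq_one.2 (isUnit_of_dvd_one h4)
  · intro I hI hIu
    by_cases h0 : (0 : Fin (l.length + 2)) ∈ I
    · have hc : (Iᶜ).Nonempty := by
        rw [Finset.nonempty_iff_ne_empty]
        intro h
        exact hIu (by rwa [Finset.compl_eq_empty_iff] at h)
      have h4 := hposI Iᶜ hc (by simpa using h0)
      have h5 := Finset.sum_add_sum_compl I x
      rw [hsum] at h5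
      omega
    · exact (hposI I hI h0).ne'
  · have hsub : (∏ i, x i).natAbs.primeFactors ⊆ ({2, 3} : Finset ℕ) := by
      intro p hp
      have hpp := Nat.prime_of_mem_primeFactors hp
      have hpd := Nat.dvd_of_mem_primeFactors hp
      have h4 : (p : ℤ) ∣ ∏ i, x i := Int.natCast_dvd.2 hpd
      obtain ⟨i, _, hi⟩ := (Nat.prime_iff_prime_int.1 hpp).exists_mem_finset_dvd h4
      have hsm : ∃ s : ℕ, Sm s ∧ (p : ℤ) ∣ s := by
        revert hi
        refine Fin.cases ?_ (fun i => ?_) i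
        · intro hi
          rw [hx0, dvd_neg] at hi
          exact ⟨3 ^ k, ⟨0, k, by ring⟩, by exact_mod_cast hi⟩
        · refine Fin.cases ?_ (fun i => ?_) i
          · intro hi
            have e1 : x (Fin.succ 0) = 1 := rfl
            rw [e1] at hi
            exact ⟨1, sm_one, by exact_mod_cast hi⟩
          · intro hi
            rw [hxs] at hi
            exact ⟨_, h2 _ (List.get_mem l i), hi⟩
      obtain ⟨s, ⟨a, b, rfl⟩, hps⟩ := hsm
      have h5 : p ∣ 2 ^ a * 3 ^ b := by exact_mod_cast hps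
      rcases (Nat.Prime.dvd_mul hpp).1 h5 with h6 | h6
      · have := (Nat.prime_dvd_prime_iff_eq hpp Nat.prime_two).1 (hpp.dvd_of_dvd_pow h6)
        simp [this]
      · have := (Nat.prime_dvd_prime_iff_eq hpp Nat.prime_three).1 (hpp.dvd_of_dvd_pow h6)
        simp [this]
    have h4 : rad x ≤ ∏ p ∈ ({2, 3} : Finset ℕ), p := by
      unfold rad
      apply Finset.prod_le_prod_of_subset_of_one_le' hsub
      intro p hp _
      simp only [Finset.mem_insert, Finset.mem_singleton] at hp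
      omega
    simpa using h4

/-- Admissible tuples of every length `m + 2 q + 2` with large maximum. -/
lemma tuples (r : ℚ) (hr : |θ - r| < 1 / (r.den : ℝ) ^ 2) (hq : 8 ≤ r.den) (m : ℕ) :
    ∃ x : Fin (m + 2 * r.den + 2) → ℤ, Admissible x ∧ rad x ≤ 6 ∧
      ((r.den : ℝ) / 4) ^ m ≤ |(x 0 : ℝ)| := by
  set q := r.den with hqdef
  -- the largest `k` with `3 ^ k * 4 ^ m ≤ q ^ m * 3 ^ q`
  have hex : ∃ k : ℕ, 3 ^ k * 4 ^ m ≤ q ^ m * 3 ^ q ∧ q ^ m * 3 ^ q < 3 ^ (k + 1) * 4 ^ m := by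
    have hP : ∃ k : ℕ, q ^ m * 3 ^ q < 3 ^ (k + 1) * 4 ^ m := by
      obtain ⟨k, hk⟩ : ∃ k : ℕ, q ^ m * 3 ^ q < 3 ^ k :=
        ⟨q ^ m * 3 ^ q, Nat.lt_pow_self (by norm_num)⟩
      refine ⟨k, lt_of_lt_of_le hk ?_⟩
      calc 3 ^ k ≤ 3 ^ (k + 1) := Nat.pow_le_pow_right (by norm_num) (by omega)
        _ = 3 ^ (k + 1) * 1 := by ring
        _ ≤ 3 ^ (k + 1) * 4 ^ m := Nat.mul_le_mul_left _ (Nat.one_le_pow _ _ (by norm_num))
    classical
    refine ⟨Nat.find hP, ?_, Nat.find_spec hP⟩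
    rcases Nat.eq_zero_or_pos (Nat.find hP) with h0 | h0
    · rw [h0, pow_zero, one_mul]
      calc 4 ^ m ≤ q ^ m := Nat.pow_le_pow_left (by omega) _
        _ = q ^ m * 1 := by ring
        _ ≤ q ^ m * 3 ^ q := Nat.mul_le_mul_left _ (Nat.one_le_pow _ _ (by norm_num))
    · have h1 := Nat.find_min hP (m := Nat.find hP - 1) (by omega)
      have h2 : Nat.find hP - 1 + 1 = Nat.find hP := by omega
      rw [h2] at h1
      omega
  obtain ⟨k, hk1, hk2⟩ := hex
  have h1le : 1 ≤ 3 ^ k := Nat.one_le_pow _ _ (by norm_num)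
  have hk3 : (3 ^ k - 1) * 4 ^ m < q ^ m * 3 ^ q := by
    refine lt_of_lt_of_le ?_ hk1
    apply Nat.mul_lt_mul_of_pos_right _ (by positivity)
    omega
  obtain ⟨T, hT, hrep⟩ := greedy r hr (by omega) m _ hk3
  -- enough room for padding
  have hroom : m + 2 * q ≤ 3 ^ k - 1 := by
    have h8 : 8 ^ m ≤ q ^ m := Nat.pow_le_pow_left hq _
    have h9 : 8 ^ m * 3 ^ q < 3 ^ (k + 1) * 4 ^ m :=
      lt_of_le_of_lt (Nat.mul_le_mul_right _ h8) hk2
    have h10 : 2 ^ m * 3 ^ q < 3 ^ (k + 1) := by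
      have : (2 ^ m * 3 ^ q) * 4 ^ m < 3 ^ (k + 1) * 4 ^ m := by
        calc (2 ^ m * 3 ^ q) * 4 ^ m = 8 ^ m * 3 ^ q := by
              rw [show (8 : ℕ) = 2 * 4 by norm_num, mul_pow]
              ring
          _ < _ := h9
      exact Nat.lt_of_mul_lt_mul_right this
    have h11 : 2 ^ m * 3 ^ (q - 1) < 3 ^ k := by
      have e1 : 3 ^ q = 3 ^ (q - 1) * 3 := by
        rw [← pow_succ]
        congr 1
        omega
      have : 3 * (2 ^ m * 3 ^ (q - 1)) < 3 * 3 ^ k := by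
        calc 3 * (2 ^ m * 3 ^ (q - 1)) = 2 ^ m * 3 ^ q := by rw [e1]; ring
          _ < 3 ^ (k + 1) := h10
          _ = 3 * 3 ^ k := by ring
      exact Nat.lt_of_mul_lt_mul_left this
    have h12 : m + 1 ≤ 2 ^ m := Nat.lt_two_pow_self
    have h13 : ∀ t : ℕ, 3 ≤ t → 2 * (t + 1) + 1 ≤ 3 ^ t := by
      intro t ht
      induction t, ht using Nat.le_induction with
      | base => norm_num
      | succ t ht ih =>
        rw [pow_succ]
        omega
    have h14 : 2 * q + 1 ≤ 3 ^ (q - 1) := by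
      have := h13 (q - 1) (by omega)
      have e : q - 1 + 1 = q := by omega
      rwa [e] at this
    have h15 : (m + 1) * (2 * q + 1) ≤ 2 ^ m * 3 ^ (q - 1) := Nat.mul_le_mul h12 h14
    have h16 : m + 2 * q + 1 ≤ (m + 1) * (2 * q + 1) := by nlinarith
    omega
  obtain ⟨x, hx1, hx2, hx3⟩ := tuple_of_rep (hrep.pad hT hroom)
  refine ⟨x, hx1, hx2, ?_⟩
  rw [hx3]
  push_cast
  rw [abs_neg, abs_of_nonneg (by positivity : (0 : ℝ) ≤ 3 ^ k), div_pow,
    div_le_iff₀ (by positivity)]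
  have hq3 : 3 ≤ 3 ^ q := by
    calc 3 = 3 ^ 1 := by norm_num
      _ ≤ 3 ^ q := Nat.pow_le_pow_right (by norm_num) (by omega)
  have hfin : q ^ m ≤ 3 ^ k * 4 ^ m := by
    have : 3 * q ^ m ≤ 3 * (3 ^ k * 4 ^ m) := by
      calc 3 * q ^ m = q ^ m * 3 := by ring
        _ ≤ q ^ m * 3 ^ q := Nat.mul_le_mul_left _ hq3
        _ ≤ 3 ^ (k + 1) * 4 ^ m := hk2.le
        _ = 3 * (3 ^ k * 4 ^ m) := by ring
    exact Nat.le_of_mul_le_mul_left this (by norm_num)
  exact_mod_cast hfin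

end Pool.Agent.TH96.SL
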