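import Mathlib
import Pool.Agent.TH96.SL.B

/-!
# Sums of few 3-smooth numbers at every scale

If `u, v` are `2 ^ q, 3 ^ p` in some order and `v < u` are very close, the numbers
`v ^ (J - j) * u ^ j`, `0 ≤ j ≤ J`, are almost equally spaced.  A sum of multiples
`3 ^ (g i) * v ^ (J - j_i) * u ^ j_i` can therefore be adjusted to hit a given target.
-/

set_option autoImplicit false

namespace Pool.Agent.TH96.SL

/-- One adjustment. -/
lemma fine_step {u v J t y : ℕ} (huv : v < u) (hy : y ≤ (u ^ J - v ^ J) * t) :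
    ∃ j ≤ J, v ^ (J - j) * u ^ j * t ≤ y + v ^ J * t ∧
      y + v ^ J * t ≤ v ^ (J - j) * u ^ j * t + u ^ (J - 1) * (u - v) * t := by
  classical
  set P : ℕ → Prop := fun j => v ^ (J - j) * u ^ j * t ≤ y + v ^ J * t with hP
  have hP0 : P 0 := by
    show v ^ (J - 0) * u ^ 0 * t ≤ y + v ^ J * t
    simp
  set j := Nat.findGreatest P J with hj
  have hjJ : j ≤ J := Nat.findGreatest_le _
  have hPj : P j := Nat.findGreatest_spec (Nat.zero_le J) hP0
  refine ⟨j, hjJ, hPj, ?_⟩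
  rcases Nat.lt_or_ge j J with h | h
  · have hn : ¬ P (j + 1) := Nat.findGreatest_is_greatest (Nat.lt_succ_self _) h
    have hn' : y + v ^ J * t < v ^ (J - (j + 1)) * u ^ (j + 1) * t := not_le.1 hn
    refine hn'.le.trans ?_
    obtain ⟨d, rfl⟩ : ∃ d, u = v + d := ⟨u - v, by omega⟩
    obtain ⟨w, hw⟩ : ∃ w, J - j = w + 1 := ⟨J - (j + 1), by omega⟩
    have hw2 : J - (j + 1) = w := by omega
    have hw3 : J - 1 = w + j := by omega
    have e : v + d - v = d := by omega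
    rw [hw, hw2, hw3, e, ← add_mul]
    apply Nat.mul_le_mul_right
    have h1 : v ^ w ≤ (v + d) ^ w := Nat.pow_le_pow_left (by omega) _
    calc v ^ w * (v + d) ^ (j + 1) = v ^ (w + 1) * (v + d) ^ j + v ^ w * ((v + d) ^ j * d) := by
          rw [pow_succ, pow_succ]
          ring
      _ ≤ v ^ (w + 1) * (v + d) ^ j + (v + d) ^ w * ((v + d) ^ j * d) :=
          Nat.add_le_add_left (Nat.mul_le_mul_right _ h1) _
      _ = v ^ (w + 1) * (v + d) ^ j + (v + d) ^ (w + j) * d := by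
          rw [pow_add]
          ring
  · have hjJ' : j = J := le_antisymm hjJ h
    rw [hjJ', Nat.sub_self, pow_zero, one_mul]
    have h1 : v ^ J ≤ u ^ J := Nat.pow_le_pow_left huv.le _
    have h2 : y + v ^ J * t ≤ u ^ J * t := by
      calc y + v ^ J * t ≤ (u ^ J - v ^ J) * t + v ^ J * t := Nat.add_le_add_right hy _
        _ = u ^ J * t := by
          rw [← add_mul]
          congr 1
          omega
    omega

lemma Sm.mul {s t : ℕ} (hs : Sm s) (ht : Sm t) : Sm (s * t) := by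
  obtain ⟨a, b, rfl⟩ := hs
  obtain ⟨c, d, rfl⟩ := ht
  exact ⟨a + c, b + d, by ring⟩

lemma Sm.pow {s : ℕ} (hs : Sm s) (k : ℕ) : Sm (s ^ k) := by
  obtain ⟨a, b, rfl⟩ := hs
  exact ⟨a * k, b * k, by rw [mul_pow, ← pow_mul, ← pow_mul]⟩

/-- Successive adjustments. -/
lemma fine_chain {u v J g : ℕ} (huv : v < u) (hsu : Sm u) (hsv : Sm v)
    (hg : u ^ (J - 1) * (u - v) * 3 ^ g ≤ u ^ J - v ^ J) (m : ℕ) :
    ∀ y : ℕ, y ≤ u ^ (J - 1) * (u - v) * 3 ^ (g * m) →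
      ∃ (l : List ℕ) (e : ℕ), l.length = m ∧ (∀ s ∈ l, Sm s) ∧ e ≤ u ^ (J - 1) * (u - v) ∧
        l.sum + e = y + ∑ i ∈ Finset.range m, v ^ J * 3 ^ (g * i) := by
  induction m with
  | zero =>
    intro y hy
    refine ⟨[], y, rfl, by simp, by simpa using hy, by simp⟩
  | succ m ih =>
    intro y hy
    have h1 : y ≤ (u ^ J - v ^ J) * 3 ^ (g * m) := by
      calc y ≤ u ^ (J - 1) * (u - v) * 3 ^ (g * (m + 1)) := hy
        _ = u ^ (J - 1) * (u - v) * 3 ^ g * 3 ^ (g * m) := by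
            rw [mul_add, pow_add, mul_one]
            ring
        _ ≤ (u ^ J - v ^ J) * 3 ^ (g * m) := Nat.mul_le_mul_right _ hg
    obtain ⟨j, _, hj1, hj2⟩ := fine_step huv h1
    obtain ⟨y1, hy1⟩ := Nat.exists_eq_add_of_le hj1
    obtain ⟨l, e, hl1, hl2, he, hsum⟩ := ih y1 (by omega)
    refine ⟨(v ^ (J - j) * u ^ j * 3 ^ (g * m)) :: l, e, by simp [hl1], ?_, he, ?_⟩
    · intro s hs
      rcases List.mem_cons.1 hs with rfl | hs
      · exact ((hsv.pow _).mul (hsu.pow _)).mul ⟨0, g * m, by ring⟩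
      · exact hl2 s hs
    · rw [List.sum_cons, Finset.sum_range_succ]
      omega

lemma Rep.mulpow3 {N T : ℕ} (h : Rep N T) (k : ℕ) : Rep (3 ^ k * N) T := by
  induction k with
  | zero => simpa using h
  | succ k ih =>
    have := ih.mul3
    rwa [← mul_assoc, ← pow_succ'] at this

lemma Rep.add {N T N' T' : ℕ} (h : Rep N T) (h' : Rep N' T') : Rep (N + N') (T + T') := by
  obtain ⟨l, h1, h2, h3⟩ := h
  obtain ⟨l', h1', h2', h3'⟩ := h'
  refine ⟨l ++ l', by simp [h1, h1'], ?_, by simp [h3, h3']⟩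
  intro s hs
  rcases List.mem_append.1 hs with hs | hs
  · exact h2 s hs
  · exact h2' s hs

lemma geom_lt {g : ℕ} (hg : 1 ≤ g) (m : ℕ) : ∑ i ∈ Finset.range m, 3 ^ (g * i) < 3 ^ (g * m) := by
  induction m with
  | zero => simp
  | succ m ih =>
    rw [Finset.sum_range_succ, mul_add, pow_add, mul_one]
    have h1 : 3 ^ 1 ≤ 3 ^ g := Nat.pow_le_pow_right (by norm_num) hg
    have h2 : 3 ^ (g * m) * 3 ≤ 3 ^ (g * m) * 3 ^ g := Nat.mul_le_mul_left _ (by simpa using h1)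
    omega

/-- `3 ^ k - 1` as a sum of few smooth numbers, from a pair of close smooth numbers. -/
lemma rep_fine {q u v J g : ℕ} (huv : v < u) (hsu : Sm u) (hsv : Sm v) (huq : u ≤ 3 ^ q)
    (hJ : 1 ≤ J) (hg1 : 1 ≤ g)
    (hg : u ^ (J - 1) * (u - v) * 3 ^ g ≤ u ^ J - v ^ J) (m : ℕ) :
    ∃ T ≤ m + 4 * (q * J), Rep (3 ^ (g * m + q * J) - 1) T := by
  have hv0 : 0 < v := hsv.pos
  have hu0 : 0 < u := hsu.pos
  have huJ : u ^ J ≤ 3 ^ (q * J) := by
    rw [pow_mul]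
    exact Nat.pow_le_pow_left huq _
  have hvJ : v ^ J ≤ 3 ^ (q * J) := (Nat.pow_le_pow_left huv.le _).trans huJ
  set S := ∑ i ∈ Finset.range m, v ^ J * 3 ^ (g * i) with hS
  have hS1 : S < 3 ^ (g * m + q * J) := by
    have h1 : S = v ^ J * ∑ i ∈ Finset.range m, 3 ^ (g * i) := by rw [hS, Finset.mul_sum]
    rw [h1, pow_add, mul_comm (3 ^ (g * m))]
    exact Nat.mul_lt_mul_of_le_of_lt hvJ (geom_lt hg1 m) (by positivity)
  set Z := 3 ^ (g * m + q * J) - 1 - S with hZ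
  have hZ1 : Z < 3 ^ (q * J) * 3 ^ (g * m) := by
    have : 3 ^ (g * m + q * J) = 3 ^ (q * J) * 3 ^ (g * m) := by rw [pow_add]; ring
    rw [← this]
    omega
  have hz : Z / 3 ^ (g * m) < 3 ^ (q * J) := by
    rw [Nat.div_lt_iff_lt_mul (by positivity)]
    exact hZ1
  obtain ⟨T1, hT1, hrep1⟩ := rep_small (q * J) _ hz
  have hW1 : 1 ≤ u ^ (J - 1) * (u - v) :=
    Nat.mul_pos (Nat.pow_pos hu0) (by omega)
  have hy : Z % 3 ^ (g * m) ≤ u ^ (J - 1) * (u - v) * 3 ^ (g * m) := by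
    calc Z % 3 ^ (g * m) ≤ 3 ^ (g * m) := (Nat.mod_lt _ (by positivity)).le
      _ = 1 * 3 ^ (g * m) := by ring
      _ ≤ _ := Nat.mul_le_mul_right _ hW1
  obtain ⟨l, e, hl1, hl2, he, hsum⟩ := fine_chain huv hsu hsv hg m _ hy
  have he2 : e < 3 ^ (q * J) := by
    refine lt_of_le_of_lt he (lt_of_lt_of_le ?_ huJ)
    have h1 : u ^ J = u ^ (J - 1) * u := by
      rw [← pow_succ]
      congr 1
      omega
    rw [h1]
    exact Nat.mul_lt_mul_of_pos_left (by omega) (Nat.pow_pos hu0)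
  obtain ⟨T2, hT2, hrep2⟩ := rep_small (q * J) _ he2
  have hrl : Rep l.sum m := ⟨l, hl1, hl2, rfl⟩
  have hall := (hrep1.mulpow3 (g * m)).add (hrl.add hrep2)
  refine ⟨T1 + (m + T2), by omega, ?_⟩
  have hdm := Nat.div_add_mod Z (3 ^ (g * m))
  have hfin : 3 ^ (g * m) * (Z / 3 ^ (g * m)) + (l.sum + e) = 3 ^ (g * m + q * J) - 1 := by
    omega
  rwa [hfin] at hall

/-- Admissible tuples from a pair of close smooth numbers. -/
lemma tuplesF {q u v J g : ℕ} (huv : v < u) (hsu : Sm u) (hsv : Sm v) (huq : u ≤ 3 ^ q)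
    (hJ : 1 ≤ J) (hqJ : 3 ≤ q * J) (hg1 : 1 ≤ g)
    (hg : u ^ (J - 1) * (u - v) * 3 ^ g ≤ u ^ J - v ^ J) (m : ℕ) :
    ∃ x : Fin (m + 4 * (q * J) + 2) → ℤ, Admissible x ∧ rad x ≤ 6 ∧
      ((3 : ℝ) ^ g) ^ m ≤ |(x 0 : ℝ)| := by
  obtain ⟨T, hT, hrep⟩ := rep_fine huv hsu hsv huq hJ hg1 hg m
  have hroom : m + 4 * (q * J) ≤ 3 ^ (g * m + q * J) - 1 := by
    have h13 : ∀ t : ℕ, 3 ≤ t → 4 * t + 1 ≤ 3 ^ t := by
      intro t ht
      induction t, ht using Nat.le_induction with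
      | base => norm_num
      | succ t ht ih =>
        rw [pow_succ]
        omega
    have h14 := h13 _ hqJ
    have h15 : m + 1 ≤ 3 ^ (g * m) := by
      have h1 : m < 2 ^ m := Nat.lt_two_pow_self
      have h2 : 2 ^ m ≤ 3 ^ m := Nat.pow_le_pow_left (by norm_num) _
      have h3 : 3 ^ m ≤ 3 ^ (g * m) := Nat.pow_le_pow_right (by norm_num) (by nlinarith)
      omega
    have h16 : (m + 1) * (4 * (q * J) + 1) ≤ 3 ^ (g * m) * 3 ^ (q * J) := Nat.mul_le_mul h15 h14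
    have h17 : m + 4 * (q * J) + 1 ≤ (m + 1) * (4 * (q * J) + 1) := by nlinarith
    rw [pow_add]
    omega
  obtain ⟨x, hx1, hx2, hx3⟩ := tuple_of_rep (hrep.pad hT hroom)
  refine ⟨x, hx1, hx2, ?_⟩
  rw [hx3]
  push_cast
  rw [abs_neg, abs_of_nonneg (by positivity : (0 : ℝ) ≤ 3 ^ (g * m + q * J)), ← pow_mul]
  exact pow_le_pow_right₀ (by norm_num) (by omega)

lemma bern (v d J : ℕ) : v ^ J + J * v ^ (J - 1) * d ≤ (v + d) ^ J := by
  induction J with
  | zero => simp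
  | succ J ih =>
    have e1 : J + 1 - 1 = J := by omega
    rw [e1, pow_succ (v + d)]
    have h1 : (v ^ J + J * v ^ (J - 1) * d) * (v + d) ≤ (v + d) ^ J * (v + d) :=
      Nat.mul_le_mul_right _ ih
    refine le_trans ?_ h1
    rcases Nat.eq_zero_or_pos J with h0 | h0
    · subst h0
      simp
    · obtain ⟨K, rfl⟩ : ∃ K, J = K + 1 := ⟨J - 1, by omega⟩
      have e2 : K + 1 - 1 = K := by omega
      rw [e2]
      have h2 : (v ^ (K + 1) + (K + 1) * v ^ K * d) * (v + d) =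
          v ^ (K + 1 + 1) + (K + 1 + 1) * v ^ (K + 1) * d + (K + 1) * v ^ K * d * d := by
        ring
      rw [h2]
      omega

/-- The spacing condition follows from `u ^ J ≤ 2 v ^ J` and `2 * 3 ^ g ≤ J`. -/
lemma spacing {u v J g : ℕ} (huv : v < u) (hJ : 1 ≤ J) (h2 : u ^ J ≤ 2 * v ^ J)
    (hg : 2 * 3 ^ g ≤ J) : u ^ (J - 1) * (u - v) * 3 ^ g ≤ u ^ J - v ^ J := by
  obtain ⟨d, rfl⟩ : ∃ d, u = v + d := ⟨u - v, by omega⟩
  have e : v + d - v = d := by omega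
  rw [e]
  obtain ⟨K, rfl⟩ : ∃ K, J = K + 1 := ⟨J - 1, by omega⟩
  have e1 : K + 1 - 1 = K := by omega
  rw [e1]
  have h3 := bern v d (K + 1)
  rw [e1] at h3
  have h4 : (v + d) ^ K ≤ 2 * v ^ K := by
    have h5 : (v + d) ^ K * (v + d) ≤ 2 * v ^ K * (v + d) := by
      calc (v + d) ^ K * (v + d) = (v + d) ^ (K + 1) := by rw [pow_succ]
        _ ≤ 2 * v ^ (K + 1) := h2
        _ = 2 * v ^ K * v := by rw [pow_succ]; ring
        _ ≤ 2 * v ^ K * (v + d) := Nat.mul_le_mul_left _ (by omega)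
    exact Nat.le_of_mul_le_mul_right h5 (by omega)
  have h6 : (v + d) ^ K * d * 3 ^ g ≤ (K + 1) * v ^ K * d := by
    calc (v + d) ^ K * d * 3 ^ g ≤ 2 * v ^ K * d * 3 ^ g :=
          Nat.mul_le_mul_right _ (Nat.mul_le_mul_right _ h4)
      _ = (2 * 3 ^ g) * (v ^ K * d) := by ring
      _ ≤ (K + 1) * (v ^ K * d) := Nat.mul_le_mul_right _ hg
      _ = _ := by ring
  omega

end Pool.Agent.TH96.SL
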