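import Mathlib
import Pool.Agent.TH96.SL.C

/-!
# Admissible tuples at every scale
-/

set_option autoImplicit false

namespace Pool.Agent.TH96.SL

/-- Dirichlet's theorem for `θ`, with a lower bound for the denominator. -/
lemma exists_good_full (N : ℕ) (hN : 0 < N) : ∃ r : ℚ, r.den ≤ N ∧ N + 1 ≤ 2 * 3 ^ r.den ∧
    |θ - r| < 1 / (r.den : ℝ) ^ 2 ∧ |θ - r| ≤ 1 / (((N : ℝ) + 1) * r.den) := by
  obtain ⟨r, hr, hrN⟩ := Real.exists_rat_abs_sub_le_and_den_le θ hN
  have hd : (0 : ℝ) < r.den := by exact_mod_cast r.den_pos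
  refine ⟨r, hrN, ?_, ?_, hr⟩
  · have h1 := form_lower r.den r.den_pos r.num
    have h2 : |(r.den : ℝ) * θ - r.num| = r.den * |θ - r| := by
      rw [← abs_of_pos hd, ← abs_mul, abs_of_pos hd]
      congr 1
      have h3 : (r : ℝ) = r.num / r.den := by exact_mod_cast (Rat.num_div_den r).symm
      rw [h3]
      field_simp
    rw [h2] at h1
    have h4 : (r.den : ℝ) * |θ - r| ≤ r.den * (1 / (((N : ℝ) + 1) * r.den)) :=
      mul_le_mul_of_nonneg_left hr hd.le
    have h5 : (r.den : ℝ) * (1 / (((N : ℝ) + 1) * r.den)) = 1 / ((N : ℝ) + 1) := by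
      field_simp
    rw [h5] at h4
    have h6 : (1 : ℝ) ≤ 1 / ((N : ℝ) + 1) * (2 * 3 ^ r.den) :=
      h1.trans (mul_le_mul_of_nonneg_right h4 (by positivity))
    rw [one_div, inv_mul_eq_div, le_div_iff₀ (by positivity), one_mul] at h6
    exact_mod_cast h6
  · refine lt_of_le_of_lt hr ?_
    apply one_div_lt_one_div_of_lt (by positivity)
    rw [sq]
    apply mul_lt_mul_of_pos_right _ hd
    have : (r.den : ℝ) ≤ N := by exact_mod_cast hrN
    linarith

lemma log3_le : Real.log 3 ≤ 2 * Real.log 2 := by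
  have h : Real.log 3 ≤ Real.log ((2 : ℝ) ^ 2) := Real.log_le_log (by norm_num) (by norm_num)
  rwa [Real.log_pow] at h

lemma half_le_θ : 1 / 2 ≤ θ := by
  unfold θ
  rw [le_div_iff₀ log3_pos]
  have := log3_le
  linarith

/-- A pair of close smooth numbers. -/
lemma close_pair (N : ℕ) (r : ℚ) (hq : 2 ≤ r.den)
    (hr : |θ - r| ≤ 1 / (((N : ℝ) + 1) * r.den)) (J : ℕ) (hJ : J * r.den ≤ N) :
    ∃ u v : ℕ, v < u ∧ Sm u ∧ Sm v ∧ u ≤ 3 ^ r.den ∧ u ^ J ≤ 2 * v ^ J := by
  set q := r.den with hqd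
  have hq0 : (0 : ℝ) < q := by
    have : 0 < q := by omega
    exact_mod_cast this
  have hq2 : (2 : ℝ) ≤ q := by exact_mod_cast hq
  have hl3 := log3_pos
  have hN0 : (0 : ℝ) ≤ N := Nat.cast_nonneg _
  have h2 : |(q : ℝ) * θ - r.num| = q * |θ - r| := by
    rw [← abs_of_pos hq0, ← abs_mul, abs_of_pos hq0]
    congr 1
    have h3 : (r : ℝ) = r.num / q := by exact_mod_cast (Rat.num_div_den r).symm
    rw [h3]
    field_simp
  have h4 : |(q : ℝ) * θ - r.num| ≤ 1 / ((N : ℝ) + 1) := by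
    rw [h2]
    have h5 : (q : ℝ) * (1 / (((N : ℝ) + 1) * q)) = 1 / ((N : ℝ) + 1) := by
      field_simp
    rw [← h5]
    exact mul_le_mul_of_nonneg_left hr hq0.le
  have h41 : 1 / ((N : ℝ) + 1) ≤ 1 := by
    rw [div_le_one (by positivity)]
    linarith
  have h4' := abs_le.1 (h4.trans h41)
  -- the numerator
  have hθ1 := θ_le_one
  have hθ2 := half_le_θ
  have hp0 : 0 ≤ r.num := by
    have h1 : (-1 : ℝ) < r.num := by
      have : (1 : ℝ) ≤ q * θ := by nlinarith
      linarith [h4'.2]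
    have h2 : (-1 : ℤ) < r.num := by exact_mod_cast h1
    omega
  obtain ⟨p, hp⟩ : ∃ p : ℕ, r.num = p := ⟨r.num.toNat, by omega⟩
  rw [hp] at h4 h4'
  have hpq : p ≤ q := by
    have h1 : (p : ℝ) < q + 1 := by
      rcases lt_or_eq_of_le hθ1 with h | h
      · have h6 : (q : ℝ) * θ < q * 1 := mul_lt_mul_of_pos_left h hq0
        have := h4'.1
        push_cast at this
        linarith
      · exfalso
        have := θ_ne 1 one_pos 1
        apply this
        rw [h]
        norm_num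
    have h2 : (p : ℝ) < ((q + 1 : ℕ) : ℝ) := by push_cast; exact h1
    have h3 : p < q + 1 := by exact_mod_cast h2
    omega
  have hne : 2 ^ q ≠ 3 ^ p := by
    intro h
    have h5 : 2 ∣ 3 ^ p := by
      rw [← h]
      exact dvd_pow_self 2 (by omega)
    have h6 := Nat.prime_two.dvd_of_dvd_pow h5
    omega
  have h2q : 2 ^ q ≤ 3 ^ q := Nat.pow_le_pow_left (by norm_num) _
  have h3p : 3 ^ p ≤ 3 ^ q := Nat.pow_le_pow_right (by norm_num) hpq
  have hid : ((q : ℝ) * θ - (p : ℤ)) * Real.log 3 =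
      Real.log ((2 ^ q : ℕ) : ℝ) - Real.log ((3 ^ p : ℕ) : ℝ) := by
    push_cast
    rw [Real.log_pow, Real.log_pow, ← θ_mul]
    ring
  have habs : |Real.log ((2 ^ q : ℕ) : ℝ) - Real.log ((3 ^ p : ℕ) : ℝ)| ≤
      Real.log 3 / ((N : ℝ) + 1) := by
    rw [← hid, abs_mul, abs_of_pos hl3]
    calc |(q : ℝ) * θ - (p : ℤ)| * Real.log 3 ≤ 1 / ((N : ℝ) + 1) * Real.log 3 :=
          mul_le_mul_of_nonneg_right h4 hl3.le
      _ = _ := by ring
  have hJN : (J : ℝ) * (Real.log 3 / ((N : ℝ) + 1)) ≤ Real.log 2 := by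
    have h5 : (J : ℝ) * q ≤ N := by exact_mod_cast hJ
    have h6 : (J : ℝ) * 2 ≤ N + 1 := by nlinarith [Nat.cast_nonneg (α := ℝ) J]
    rw [← mul_div_assoc, div_le_iff₀ (by positivity)]
    have h7 := log3_le
    have h8 : (J : ℝ) * Real.log 3 ≤ J * (2 * Real.log 2) :=
      mul_le_mul_of_nonneg_left h7 (Nat.cast_nonneg _)
    have h9 : 0 < Real.log 2 := Real.log_pos (by norm_num)
    nlinarith
  have hfin : ∀ u v : ℕ, 0 < u → 0 < v →
      Real.log (u : ℝ) - Real.log (v : ℝ) ≤ Real.log 3 / ((N : ℝ) + 1) →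
      u ^ J ≤ 2 * v ^ J := by
    intro u v hu hv h
    have hu0 : (0 : ℝ) < u := by exact_mod_cast hu
    have hv0 : (0 : ℝ) < v := by exact_mod_cast hv
    have h5 : (J : ℝ) * (Real.log (u : ℝ) - Real.log (v : ℝ)) ≤ Real.log 2 :=
      (mul_le_mul_of_nonneg_left h (Nat.cast_nonneg _)).trans hJN
    have h6 : Real.log ((u : ℝ) ^ J) ≤ Real.log (2 * (v : ℝ) ^ J) := by
      rw [Real.log_pow, Real.log_mul (by norm_num) (by positivity), Real.log_pow]
      linarith
    have h7 : (u : ℝ) ^ J ≤ 2 * (v : ℝ) ^ J :=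
      (Real.log_le_log_iff (by positivity) (by positivity)).1 h6
    exact_mod_cast h7
  have hs2 : Sm (2 ^ q) := ⟨q, 0, by ring⟩
  have hs3 : Sm (3 ^ p) := ⟨0, p, by ring⟩
  rcases lt_or_gt_of_ne hne with h | h
  · refine ⟨3 ^ p, 2 ^ q, h, hs3, hs2, h3p, hfin _ _ (by positivity) (by positivity) ?_⟩
    rw [abs_sub_comm] at habs
    exact (le_abs_self _).trans habs
  · refine ⟨2 ^ q, 3 ^ p, h, hs2, hs3, h2q, hfin _ _ (by positivity) (by positivity) ?_⟩
    exact (le_abs_self _).trans habs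

/-- Admissible tuples at every scale. -/
lemma tuples_all (N : ℕ) (hN : 100 ≤ N) : ∃ T ≤ 4 * N, ∀ m : ℕ,
    ∃ x : Fin (m + T + 2) → ℤ, Admissible x ∧ rad x ≤ 6 ∧
      (Real.sqrt N / 6) ^ m ≤ |(x 0 : ℝ)| := by
  obtain ⟨r, hrN, hr3, hr2, hr1⟩ := exists_good_full N (by omega)
  have hsq : Real.sqrt N * Real.sqrt N = N := Real.mul_self_sqrt (Nat.cast_nonneg _)
  have hs0 : 0 ≤ Real.sqrt N := Real.sqrt_nonneg _
  rcases Nat.lt_or_ge N (r.den * r.den) with hq | hq
  · -- many residues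
    have h8 : 8 ≤ r.den := by
      by_contra h
      push Not at h
      have : r.den * r.den ≤ 7 * 7 := Nat.mul_le_mul (by omega) (by omega)
      omega
    refine ⟨2 * r.den, by omega, fun m => ?_⟩
    obtain ⟨x, hx1, hx2, hx3⟩ := tuples r hr2 h8 m
    refine ⟨x, hx1, hx2, le_trans ?_ hx3⟩
    apply pow_le_pow_left₀ (by positivity)
    have h9 : Real.sqrt N ≤ r.den := by
      rw [Real.sqrt_le_left (Nat.cast_nonneg _)]
      rw [sq]
      exact_mod_cast hq.le
    linarith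
  · -- few residues
    have hq2 : 2 ≤ r.den := by
      by_contra h
      push Not at h
      have h1 : r.den ≤ 1 := by omega
      have h2 : 3 ^ r.den ≤ 3 ^ 1 := Nat.pow_le_pow_right (by norm_num) h1
      omega
    set q := r.den with hqd
    have hq0 : 0 < q := by omega
    set J := N / q with hJd
    have hJ1 : q * J ≤ N := Nat.mul_div_le N q
    have hJ2 : N < q * (J + 1) := Nat.lt_mul_div_succ N hq0
    have hJs : Real.sqrt N < (J : ℝ) + 1 := by
      have h1 : (q : ℝ) ≤ Real.sqrt N := by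
        apply Real.le_sqrt_of_sq_le
        rw [sq]
        exact_mod_cast hq
      have h2 : (N : ℝ) < q * ((J : ℝ) + 1) := by exact_mod_cast hJ2
      have hspos : 0 < Real.sqrt N := by
        apply Real.sqrt_pos.2
        have : 0 < N := by omega
        exact_mod_cast this
      by_contra hcon
      push Not at hcon
      have h3 : (q : ℝ) * ((J : ℝ) + 1) ≤ Real.sqrt N * Real.sqrt N :=
        mul_le_mul h1 hcon (by positivity) hs0
      linarith
    have hJ9 : 9 < J + 1 := by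
      have h1 : (10 : ℝ) ≤ Real.sqrt N := by
        apply Real.le_sqrt_of_sq_le
        have : (100 : ℝ) ≤ N := by exact_mod_cast hN
        linarith
      have h2 : (9 : ℝ) < ((J + 1 : ℕ) : ℝ) := by
        push_cast
        linarith
      exact_mod_cast h2
    -- the power of `3`
    obtain ⟨g, hg1, hg2, hg3⟩ : ∃ g : ℕ, 1 ≤ g ∧ 2 * 3 ^ g ≤ J ∧ J < 2 * 3 ^ (g + 1) := by
      have h1 : 3 ^ Nat.log 3 (J / 2) ≤ J / 2 := Nat.pow_log_le_self 3 (by omega)
      have h2 : J / 2 < 3 ^ (Nat.log 3 (J / 2) + 1) := Nat.lt_pow_succ_log_self (by norm_num) _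
      refine ⟨Nat.log 3 (J / 2), ?_, by omega, by omega⟩
      by_contra h
      push Not at h
      have h3 : Nat.log 3 (J / 2) + 1 ≤ 1 := by omega
      have h4 : 3 ^ (Nat.log 3 (J / 2) + 1) ≤ 3 ^ 1 := Nat.pow_le_pow_right (by norm_num) h3
      omega
    obtain ⟨u, v, huv, hsu, hsv, huq, hu2⟩ := close_pair N r hq2 hr1 J (by rw [mul_comm]; exact hJ1)
    have hsp := spacing huv (by omega) hu2 hg2
    have hqJ : 3 ≤ q * J := by
      calc 3 ≤ 2 * 9 := by norm_num
        _ ≤ q * J := Nat.mul_le_mul hq2 (by omega)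
    refine ⟨4 * (q * J), by omega, fun m => ?_⟩
    obtain ⟨x, hx1, hx2, hx3⟩ := tuplesF huv hsu hsv huq (by omega) hqJ hg1 hsp m
    refine ⟨x, hx1, hx2, le_trans ?_ hx3⟩
    apply pow_le_pow_left₀ (by positivity)
    have h5 : J + 1 ≤ 6 * 3 ^ g := by
      rw [pow_succ] at hg3
      omega
    have h6 : ((J : ℝ) + 1) ≤ 6 * 3 ^ g := by exact_mod_cast h5
    linarith

end Pool.Agent.TH96.SL
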