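import Mathlib
import Pool.Agent.TH96.SL.D

/-!
# Admissible tuples of 3-smooth numbers of every large length
-/

set_option autoImplicit false

namespace Pool.Agent.TH96.SL

open Filter

lemma partA (δ : ℝ) (hδ : 0 < δ) : ∀ᶠ n : ℕ in atTop, ∃ x : Fin n → ℤ,
    Admissible x ∧ rad x ≤ 6 ∧ ∃ j, (n : ℝ) ^ ((1 / 2 - δ) * n) ≤ (|x j| : ℝ) := by
  -- a small parameter
  set η : ℝ := min (δ / 10) (1 / 10) with hη
  have hη0 : 0 < η := lt_min (by positivity) (by norm_num)
  have hη6 : η ≤ 1 / 10 := min_le_right _ _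
  have hηδ : η ≤ δ / 10 := min_le_left _ _
  -- growth facts
  have hlogn : Tendsto (fun n : ℕ => Real.log n) atTop atTop :=
    Real.tendsto_log_atTop.comp tendsto_natCast_atTop_atTop
  filter_upwards [eventually_ge_atTop 3,
    hlogn.eventually_ge_atTop (Real.log (72 / η) / δ), hlogn.eventually_ge_atTop (Real.log (72 / η)),
    tendsto_natCast_atTop_atTop.eventually_ge_atTop (101 / η)] with n hn3 hn1 hn2 hn4
  have hn0 : (0 : ℝ) < n := by
    have : 0 < n := by omega
    exact_mod_cast this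
  have hηn : 101 ≤ η * n := by
    have h1 : η * (101 / η) ≤ η * n := mul_le_mul_of_nonneg_left hn4 hη0.le
    have h2 : η * (101 / η) = 101 := by
      field_simp
    linarith
  set N : ℕ := ⌊η * n⌋₊ with hN
  have hNn : (N : ℝ) ≤ η * n := Nat.floor_le (by positivity)
  have hNn' : η * n < N + 1 := Nat.lt_floor_add_one _
  have hN100 : 100 ≤ N := by
    have : (100 : ℝ) < N + 1 := by linarith
    have : (100 : ℝ) < ((N + 1 : ℕ) : ℝ) := by push_cast; exact this
    have : 100 < N + 1 := by exact_mod_cast this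
    omega
  obtain ⟨T, hT, hx⟩ := tuples_all N hN100
  have hTn : (T : ℝ) ≤ 4 * (η * n) := by
    have h1 : (T : ℝ) ≤ ((4 * N : ℕ) : ℝ) := by exact_mod_cast hT
    push_cast at h1
    linarith
  obtain ⟨m, hm⟩ : ∃ m, n = m + T + 2 := by
    refine ⟨n - (T + 2), ?_⟩
    have h1 : (T : ℝ) + 2 ≤ n := by nlinarith
    have h2 : T + 2 ≤ n := by exact_mod_cast h1
    omega
  have hmn : (1 - 5 * η) * n ≤ m := by
    have h1 : (n : ℝ) = m + T + 2 := by exact_mod_cast hm
    linarith
  obtain ⟨x, hx1, hx2, hx3⟩ := hx m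
  have hN0 : (0 : ℝ) < N := by
    have : 0 < N := by omega
    exact_mod_cast this
  have hmain : (n : ℝ) ^ ((1 / 2 - δ) * n) ≤ (Real.sqrt N / 6) ^ m := by
    have hs0 : 0 < Real.sqrt N := Real.sqrt_pos.2 hN0
    rw [← Real.log_le_log_iff (Real.rpow_pos_of_pos hn0 _) (by positivity),
      Real.log_rpow hn0, Real.log_pow]
    -- the logarithm of the base
    have h1 : Real.log n - Real.log (72 / η) ≤ 2 * Real.log (Real.sqrt N / 6) := by
      have e1 : 2 * Real.log (Real.sqrt N / 6) = Real.log ((Real.sqrt N / 6) ^ 2) := by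
        rw [Real.log_pow]
        norm_num
      rw [e1, ← Real.log_div hn0.ne' (by positivity)]
      apply Real.log_le_log (by positivity)
      rw [div_pow, Real.sq_sqrt hN0.le, div_div_eq_mul_div, div_le_div_iff₀ (by norm_num) (by norm_num)]
      have h100 : (100 : ℝ) ≤ N := by exact_mod_cast hN100
      nlinarith
    have hL0 : 0 ≤ Real.log n - Real.log (72 / η) := by linarith
    have hL1 : Real.log (72 / η) ≤ δ * Real.log n := by
      have := (div_le_iff₀ hδ).1 hn1
      linarith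
    have h72 : 0 ≤ Real.log (72 / η) := by
      apply Real.log_nonneg
      rw [le_div_iff₀ hη0]
      linarith
    have hlog0 : 0 ≤ Real.log n := by linarith
    have h2 : (1 - 5 * η) * n * (Real.log n - Real.log (72 / η)) ≤
        m * (2 * Real.log (Real.sqrt N / 6)) :=
      (mul_le_mul_of_nonneg_right hmn hL0).trans
        (mul_le_mul_of_nonneg_left h1 (Nat.cast_nonneg _))
    have h3 : (1 - 2 * δ) * Real.log n ≤ (1 - 5 * η) * (Real.log n - Real.log (72 / η)) := by
      have h4 : 5 * η * Real.log n ≤ δ / 2 * Real.log n :=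
        mul_le_mul_of_nonneg_right (by linarith) hlog0
      have h5 : (1 - 5 * η) * Real.log (72 / η) ≤ Real.log (72 / η) := by nlinarith
      have h6 : 0 ≤ δ * Real.log n := by positivity
      nlinarith
    have h4 : n * ((1 - 2 * δ) * Real.log n) ≤
        n * ((1 - 5 * η) * (Real.log n - Real.log (72 / η))) :=
      mul_le_mul_of_nonneg_left h3 hn0.le
    nlinarith
  revert hmain
  rw [hm]
  intro hmain
  exact ⟨x, hx1, hx2, 0, hmain.trans hx3⟩

lemma partB (δ : ℝ) (hδ : 0 < δ) (B : ℕ) : ∃ n : ℕ, B ≤ n ∧ 3 ≤ n ∧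
    ∃ x : Fin n → ℤ, Admissible x ∧ rad x ≤ 6 ∧
    ∃ j, (n : ℝ) ^ ((1 - δ) * n) ≤ (|x j| : ℝ) := by
  set L : ℕ := ⌈4 / δ⌉₊ + 4 with hL
  have hL4 : (4 : ℝ) ≤ L := by
    rw [hL]
    push_cast
    have : (0 : ℝ) ≤ (⌈4 / δ⌉₊ : ℝ) := Nat.cast_nonneg _
    linarith
  have hδL : 4 ≤ δ * L := by
    have h1 : 4 / δ ≤ (⌈4 / δ⌉₊ : ℝ) := Nat.le_ceil _
    have h2 : 4 / δ ≤ (L : ℝ) := by
      rw [hL]
      push_cast
      linarith
    rw [div_le_iff₀ hδ] at h2
    linarith
  obtain ⟨r, hr1, hr2⟩ := exists_good (B + (4 * L) ^ L + 8)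
  set q := r.den with hq
  have hL4N : 4 ≤ L := by omega
  have hqpos : 0 < q := by omega
  have hq0 : (0 : ℝ) < q := by exact_mod_cast hqpos
  have hL0 : (0 : ℝ) < L := by linarith
  obtain ⟨m, hm⟩ : ∃ m, L * q = m + 2 * q + 2 := by
    refine ⟨L * q - (2 * q + 2), ?_⟩
    have : 4 * q ≤ L * q := Nat.mul_le_mul_right _ hL4N
    omega
  have hmL : (L - 3 : ℝ) * q ≤ m := by
    have h1 : (L : ℝ) * q = m + 2 * q + 2 := by exact_mod_cast hm
    have h2 : (8 : ℝ) ≤ q := by
      have : 8 ≤ q := by omega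
      exact_mod_cast this
    nlinarith
  have hBn : B ≤ L * q := by
    calc B ≤ q := by omega
      _ = 1 * q := by ring
      _ ≤ L * q := Nat.mul_le_mul_right _ (by omega)
  have h3n : 3 ≤ L * q := by
    have : 4 * 1 ≤ L * q := Nat.mul_le_mul hL4N hqpos
    omega
  have hlogq : (L : ℝ) * (Real.log 4 + Real.log L) ≤ Real.log q := by
    have h1 : ((4 * L : ℕ) : ℝ) ^ L ≤ q := by
      have : (4 * L) ^ L ≤ q := by omega
      exact_mod_cast this
    have h2 := Real.log_le_log (by positivity) h1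
    rw [Real.log_pow] at h2
    push_cast at h2
    rwa [Real.log_mul (by norm_num) hL0.ne'] at h2
  have hlogL : 0 ≤ Real.log L := Real.log_nonneg (by linarith)
  have hlog4 : 0 ≤ Real.log 4 := Real.log_nonneg (by norm_num)
  have hlogq0 : 0 ≤ Real.log q := by
    have : 0 ≤ (L : ℝ) * (Real.log 4 + Real.log L) := by positivity
    linarith
  obtain ⟨x, hx1, hx2, hx3⟩ := tuples r hr2 (by omega) m
  have hmain : ((L * q : ℕ) : ℝ) ^ ((1 - δ) * ((L * q : ℕ) : ℝ)) ≤ ((q : ℝ) / 4) ^ m := by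
    have hn0 : (0 : ℝ) < ((L * q : ℕ) : ℝ) := by
      push_cast
      positivity
    have hq40 : (0 : ℝ) < (q : ℝ) / 4 := by positivity
    rw [← Real.log_le_log_iff (Real.rpow_pos_of_pos hn0 _) (by positivity),
      Real.log_rpow hn0, Real.log_pow, Real.log_div hq0.ne' (by norm_num)]
    push_cast
    rw [Real.log_mul hL0.ne' hq0.ne']
    -- both sides divided by `q`
    have e1 : (1 - δ) * ((L : ℝ) * q) * (Real.log L + Real.log q) ≤
        (L - 4 : ℝ) * q * (Real.log L + Real.log q) := by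
      apply mul_le_mul_of_nonneg_right _ (by linarith)
      have : (1 - δ) * (L : ℝ) ≤ L - 4 := by linarith
      calc (1 - δ) * ((L : ℝ) * q) = (1 - δ) * L * q := by ring
        _ ≤ (L - 4) * q := mul_le_mul_of_nonneg_right this hq0.le
    have e2 : (L - 4 : ℝ) * (Real.log L + Real.log q) ≤ (L - 3 : ℝ) * (Real.log q - Real.log 4) := by
      have e3 : (L - 4 : ℝ) * Real.log L ≤ L * Real.log L :=
        mul_le_mul_of_nonneg_right (by linarith) hlogL
      have e4 : (L - 3 : ℝ) * Real.log 4 ≤ L * Real.log 4 :=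
        mul_le_mul_of_nonneg_right (by linarith) hlog4
      nlinarith
    have e5 : Real.log 4 ≤ Real.log q := by
      have : (1 : ℝ) * Real.log 4 ≤ L * (Real.log 4 + Real.log L) :=
        mul_le_mul (by linarith) (by linarith) hlog4 hL0.le
      linarith
    have e6 : (L - 3 : ℝ) * q * (Real.log q - Real.log 4) ≤ m * (Real.log q - Real.log 4) :=
      mul_le_mul_of_nonneg_right hmL (by linarith)
    have e7 : (L - 4 : ℝ) * q * (Real.log L + Real.log q) ≤
        (L - 3 : ℝ) * q * (Real.log q - Real.log 4) := by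
      calc (L - 4 : ℝ) * q * (Real.log L + Real.log q)
          = q * ((L - 4 : ℝ) * (Real.log L + Real.log q)) := by ring
        _ ≤ q * ((L - 3 : ℝ) * (Real.log q - Real.log 4)) := mul_le_mul_of_nonneg_left e2 hq0.le
        _ = _ := by ring
    linarith
  refine ⟨L * q, hBn, h3n, ?_⟩
  revert hmain
  rw [hm]
  intro hmain
  exact ⟨x, hx1, hx2, 0, hmain.trans hx3⟩

lemma partB' (δ : ℝ) (hδ : 0 < δ) : ∃ᶠ n : ℕ in atTop, ∃ x : Fin n → ℤ,
    Admissible x ∧ rad x ≤ 6 ∧ ∃ j, (n : ℝ) ^ ((1 - δ) * n) ≤ (|x j| : ℝ) := by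
  rw [frequently_atTop]
  intro B
  obtain ⟨n, hn, _, hx⟩ := partB δ hδ B
  exact ⟨n, hn, hx⟩

end Pool.Agent.TH96.SL
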